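import Mathlib
import Pool.Agent.V1181.QuadGrad

/-!
# A solution that changes sign below the first weighted eigenvalue
-/

set_option autoImplicit false

namespace Pool.Agent.Results.MP_ac8703_an.NegativeSolution

open Pool.Agent.V1181
open Real Set Filter MeasureTheory Topology InnerProductSpace Laplacian

noncomputable section

/-- The flux profile. -/
def S (s : ℝ) : ℝ := smoothTransition (3 * s - 1)

/-- The function `ζ`. -/
def ζ (s : ℝ) : ℝ := 1 + 1 / 20 * ∫ t in (1 : ℝ)..s, S t

/-- `exp (-2 u₀)`. -/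
def m (s : ℝ) : ℝ := s + (1 - s) * (1 - smoothTransition (6 * s - 1))

/-- The solution `u₀` of `(P₀)`, as a function of `|x| ^ 2`. -/
def U0 (s : ℝ) : ℝ := -(1 / 2) * log (m s)

/-- The sign changing solution, as a function of `|x| ^ 2`. -/
def U (s : ℝ) : ℝ := U0 s + log (ζ s)

theorem S_smooth : ContDiff ℝ (⊤ : ℕ∞) S :=
  Real.smoothTransition.contDiff.comp (by fun_prop)

theorem S_nonneg (s : ℝ) : 0 ≤ S s := Real.smoothTransition.nonneg _

theorem S_le_one (s : ℝ) : S s ≤ 1 := Real.smoothTransition.le_one _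

theorem S_zero {s : ℝ} (h : s ≤ 1 / 3) : S s = 0 :=
  Real.smoothTransition.zero_of_nonpos (by linarith)

theorem S_one {s : ℝ} (h : 2 / 3 ≤ s) : S s = 1 :=
  Real.smoothTransition.one_of_one_le (by linarith)

theorem S_mono : Monotone S := fun a b h => Real.smoothTransition.monotone (by linarith)

theorem S_deriv (s : ℝ) : HasDerivAt S (deriv S s) s :=
  (S_smooth.differentiable (by norm_num) s).hasDerivAt

theorem dS_cont : Continuous (deriv S) :=
  (contDiff_infty.1 S_smooth 1).continuous_deriv (le_refl _)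

theorem dS_nonneg (s : ℝ) : 0 ≤ deriv S s := S_mono.deriv_nonneg

theorem dS_zero {s : ℝ} (h : s < 1 / 3 ∨ 2 / 3 < s) : deriv S s = 0 := by
  rcases h with h | h
  · have : S =ᶠ[𝓝 s] fun _ => 0 := by
      filter_upwards [gt_mem_nhds h] with t ht
      exact S_zero ht.le
    rw [this.deriv_eq]; simp
  · have : S =ᶠ[𝓝 s] fun _ => 1 := by
      filter_upwards [lt_mem_nhds h] with t ht
      exact S_one ht.le
    rw [this.deriv_eq]; simp

theorem exists_dS_pos : ∃ s ∈ Ioo (1 / 3 : ℝ) (2 / 3), 0 < deriv S s := by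
  obtain ⟨s, hs, h⟩ := exists_deriv_eq_slope S (a := 1 / 3) (b := 2 / 3) (by norm_num)
    S_smooth.continuous.continuousOn (fun t _ => (S_deriv t).differentiableAt.differentiableWithinAt)
  refine ⟨s, hs, ?_⟩
  rw [h, S_zero le_rfl, S_one le_rfl]
  norm_num

theorem ζ_deriv (s : ℝ) : HasDerivAt ζ (1 / 20 * S s) s := by
  have hS := S_smooth.continuous
  have h := intervalIntegral.integral_hasDerivAt_right (hS.intervalIntegrable 1 s)
    (hS.stronglyMeasurableAtFilter _ _) hS.continuousAt
  exact (h.const_mul (1 / 20)).const_add 1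

theorem ζ_smooth : ContDiff ℝ 2 ζ := by
  have hd : deriv ζ = fun s => 1 / 20 * S s := funext fun s => (ζ_deriv s).deriv
  have h1 : ContDiff ℝ (1 + 1) ζ := by
    rw [contDiff_succ_iff_deriv]
    refine ⟨fun s => (ζ_deriv s).differentiableAt, by simp, ?_⟩
    rw [hd]
    exact contDiff_const.mul (contDiff_infty.1 S_smooth 1)
  rwa [one_add_one_eq_two] at h1

theorem ζ_one : ζ 1 = 1 := by simp [ζ]

theorem ζ_mono : Monotone ζ :=
  monotone_of_deriv_nonneg (fun s => (ζ_deriv s).differentiableAt) fun s => by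
    rw [(ζ_deriv s).deriv]
    have := S_nonneg s
    positivity

theorem ζ_ge_unit {s : ℝ} (h0 : 0 ≤ s) : 19 / 20 ≤ ζ s := by
  rcases le_total 1 s with h | h
  · have := ζ_mono h
    rw [ζ_one] at this
    linarith
  · have hS := S_smooth.continuous
    have h1 : ∫ t in s..(1 : ℝ), S t ≤ ∫ _ in s..(1 : ℝ), (1 : ℝ) :=
      intervalIntegral.integral_mono_on (μ := volume) h (hS.intervalIntegrable _ _)
        intervalIntegrable_const fun t _ => S_le_one t
    rw [intervalIntegral.integral_const, smul_eq_mul, mul_one] at h1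
    unfold ζ
    rw [intervalIntegral.integral_symm]
    linarith

theorem ζ_ge (s : ℝ) : 19 / 20 ≤ ζ s := by
  rcases le_total 0 s with h | h
  · exact ζ_ge_unit h
  · have hS := S_smooth.continuous
    have h1 : ζ s = ζ 0 := by
      unfold ζ
      rw [← intervalIntegral.integral_add_adjacent_intervals (b := (0 : ℝ))
        (hS.intervalIntegrable 1 0) (hS.intervalIntegrable 0 s)]
      have h2 : ∫ t in (0 : ℝ)..s, S t = 0 := by
        rw [intervalIntegral.integral_symm, neg_eq_zero]
        refine intervalIntegral.integral_zero_ae (Eventually.of_forall fun t ht => ?_)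
        rw [uIoc_of_le h] at ht
        exact S_zero (by linarith [ht.2])
      rw [h2, add_zero]
    rw [h1]
    exact ζ_ge_unit le_rfl

theorem ζ_pos (s : ℝ) : 0 < ζ s := by linarith [ζ_ge s]

theorem ζ_zero_lt : ζ 0 < 1 := by
  have hS := S_smooth.continuous
  have h1 : 0 < ∫ t in (0 : ℝ)..1, S t :=
    intervalIntegral.integral_pos one_pos hS.continuousOn (fun t _ => S_nonneg t)
      ⟨1, ⟨zero_le_one, le_rfl⟩, by rw [S_one (by norm_num)]; exact one_pos⟩
  unfold ζ
  rw [intervalIntegral.integral_symm]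
  linarith

theorem m_smooth : ContDiff ℝ (⊤ : ℕ∞) m := by
  have h1 : ContDiff ℝ (⊤ : ℕ∞) fun s : ℝ => smoothTransition (6 * s - 1) :=
    Real.smoothTransition.contDiff.comp (by fun_prop)
  exact contDiff_id.add ((contDiff_const.sub contDiff_id).mul (contDiff_const.sub h1))

theorem m_eq {s : ℝ} (h : 1 / 3 ≤ s) : m s = s := by
  unfold m
  rw [Real.smoothTransition.one_of_one_le (by linarith)]
  ring

theorem m_pos (s : ℝ) : 0 < m s := by
  rcases le_total s 0 with h | h
  · unfold m
    rw [Real.smoothTransition.zero_of_nonpos (by linarith)]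
    linarith
  · rcases le_total s (1 / 6) with h1 | h1
    · unfold m
      rw [Real.smoothTransition.zero_of_nonpos (by linarith)]
      linarith
    · rcases le_total s 1 with h2 | h2
      · unfold m
        have h3 := Real.smoothTransition.le_one (6 * s - 1)
        have h4 : 0 ≤ (1 - s) * (1 - smoothTransition (6 * s - 1)) :=
          mul_nonneg (by linarith) (by linarith)
        linarith
      · rw [m_eq (by linarith)]
        linarith

theorem m_le_one {s : ℝ} (h : s ≤ 1) : m s ≤ 1 := by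
  unfold m
  have h3 := Real.smoothTransition.nonneg (6 * s - 1)
  nlinarith

theorem m_zero : m 0 = 1 := by
  unfold m
  rw [Real.smoothTransition.zero_of_nonpos (by norm_num)]
  norm_num

theorem m_deriv (s : ℝ) : HasDerivAt m (deriv m s) s :=
  (m_smooth.differentiable (by norm_num) s).hasDerivAt

theorem m_deriv2 (s : ℝ) : HasDerivAt (deriv m) (deriv (deriv m) s) s := by
  have h : ContDiff ℝ 1 (deriv m) := by
    have h2 : ContDiff ℝ (1 + 1) m := by
      exact_mod_cast contDiff_infty.1 m_smooth 2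
    exact (contDiff_succ_iff_deriv.1 h2).2.2
  exact (h.differentiable (by norm_num) s).hasDerivAt

theorem dm_eq {s : ℝ} (h : 1 / 3 < s) : deriv m s = 1 := by
  have : m =ᶠ[𝓝 s] fun t => t := by
    filter_upwards [lt_mem_nhds h] with t ht
    exact m_eq ht.le
  rw [this.deriv_eq]
  simp

/-- Derivatives of `U0`. -/
def U0' (s : ℝ) : ℝ := -(1 / 2) * (deriv m s / m s)

def U0'' (s : ℝ) : ℝ := -(1 / 2) * ((deriv (deriv m) s * m s - deriv m s * deriv m s) / m s ^ 2)

theorem U0_deriv (s : ℝ) : HasDerivAt U0 (U0' s) s :=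
  ((m_deriv s).log (m_pos s).ne').const_mul _

theorem U0'_deriv (s : ℝ) : HasDerivAt U0' (U0'' s) s :=
  ((m_deriv2 s).div (m_deriv s) (m_pos s).ne').const_mul _

theorem U0_smooth : ContDiff ℝ 2 U0 :=
  contDiff_const.mul ((contDiff_infty.1 m_smooth 2).log fun s => (m_pos s).ne')

/-- Derivatives of `U`. -/
def U' (s : ℝ) : ℝ := U0' s + 1 / 20 * S s / ζ s

def U'' (s : ℝ) : ℝ :=
  U0'' s + (1 / 20 * deriv S s * ζ s - 1 / 20 * S s * (1 / 20 * S s)) / ζ s ^ 2

theorem U_deriv (s : ℝ) : HasDerivAt U (U' s) s :=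
  (U0_deriv s).add ((ζ_deriv s).log (ζ_pos s).ne')

theorem U'_deriv (s : ℝ) : HasDerivAt U' (U'' s) s :=
  (U0'_deriv s).add (((S_deriv s).const_mul (1 / 20)).div (ζ_deriv s) (ζ_pos s).ne')

theorem U_smooth : ContDiff ℝ 2 U :=
  U0_smooth.add (ζ_smooth.log fun s => (ζ_pos s).ne')

/-- The coefficient `c`, as a function of `|x| ^ 2`. -/
def cc (s : ℝ) : ℝ := 1 / 5 * deriv S s * s / (ζ s * max (U s) (1 / 10))

/-- The function `h`, as a function of `|x| ^ 2`. -/
def hh (s : ℝ) : ℝ := -(4 * s * U0'' s + 4 * U0' s) - 4 * s * U0' s ^ 2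

theorem cc_cont : Continuous cc := by
  unfold cc
  have h1 := dS_cont
  have h2 := ζ_smooth.continuous
  have h3 := U_smooth.continuous
  refine Continuous.div (by fun_prop) (by fun_prop) fun s => ?_
  have h4 := ζ_pos s
  have h5 : 0 < max (U s) (1 / 10) := lt_max_of_lt_right (by norm_num)
  positivity

theorem hh_cont : Continuous hh := by
  have h0 := m_smooth.continuous
  have h1 : Continuous (deriv m) := continuous_iff_continuousAt.2 fun s => (m_deriv2 s).continuousAt
  have h2 : Continuous (deriv (deriv m)) := by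
    have h2 : ContDiff ℝ (1 + 1) m := by
      exact_mod_cast contDiff_infty.1 m_smooth 2
    exact ((contDiff_succ_iff_deriv.1 h2).2.2).continuous_deriv (le_refl _)
  have h3 : Continuous U0' := by
    unfold U0'
    exact continuous_const.mul (h1.div h0 fun s => (m_pos s).ne')
  have h4 : Continuous U0'' := by
    unfold U0''
    refine continuous_const.mul (Continuous.div (by fun_prop) (by fun_prop) fun s => ?_)
    have := m_pos s
    positivity
  unfold hh
  fun_prop

theorem U_ge {s : ℝ} (h1 : 1 / 3 ≤ s) (h2 : s ≤ 2 / 3) : 1 / 10 ≤ U s := by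
  unfold U U0
  rw [m_eq h1]
  have h3 : log s ≤ s - 1 := Real.log_le_sub_one_of_pos (by linarith)
  have h4 : 1 - (ζ s)⁻¹ ≤ log (ζ s) := Real.one_sub_inv_le_log_of_pos (ζ_pos s)
  have h5 : (ζ s)⁻¹ ≤ (19 / 20)⁻¹ := inv_anti₀ (by norm_num) (ζ_ge s)
  norm_num at h5
  linarith

/-- The key identity. -/
theorem key (s : ℝ) : -(4 * s * U'' s + 4 * U' s) =
    (-1) * (cc s * U s) + 1 * (4 * s * U' s ^ 2) + hh s := by
  have hζ := ζ_pos s
  have hc : cc s * U s = 1 / 5 * deriv S s * s / ζ s := by
    by_cases hs : s < 1 / 3 ∨ 2 / 3 < s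
    · unfold cc
      rw [dS_zero hs]
      simp
    · rw [not_or, not_lt, not_lt] at hs
      have h1 := U_ge hs.1 hs.2
      unfold cc
      rw [max_eq_left h1]
      have h2 : 0 < U s := by linarith
      field_simp
  have hS : S s * (1 + 2 * s * U0' s) = 0 := by
    rcases le_or_gt s (1 / 3) with h | h
    · rw [S_zero h, zero_mul]
    · have : 1 + 2 * s * U0' s = 0 := by
        unfold U0'
        rw [m_eq h.le, dm_eq h]
        have : s ≠ 0 := by linarith
        field_simp
        ring
      rw [this, mul_zero]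
  rw [hc]
  unfold U'' U' hh
  generalize U0'' s = a at *
  generalize U0' s = b at *
  generalize ζ s = z at *
  generalize deriv S s = d at *
  generalize S s = e at *
  have hz : z ≠ 0 := hζ.ne'
  field_simp
  linear_combination (-400) * z * hS

/-- There are continuous `c ≥ 0`, `c ≢ 0`, and `h` on the disc such that `(P₀)` (with `μ = 1`) has a
solution `u₀ ≥ 0` with `c u₀ ≩ 0`, while `(P_λ)` has for `λ = -1` a solution which is negative
somewhere. -/
theorem result : ∃ c h u₀ u : Plane → ℝ, ∃ G₀ G : Plane → Plane,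
    Continuous c ∧ Continuous h ∧ (∀ x, 0 ≤ c x) ∧
    IsSol 0 c (fun _ => 1) h u₀ G₀ ∧ Continuous u₀ ∧ (∀ x ∈ disc, 0 ≤ u₀ x) ∧
    (∃ x ∈ disc, 0 < c x * u₀ x) ∧
    IsSol (-1) c (fun _ => 1) h u G ∧ Continuous u ∧ ∃ x ∈ disc, u x < 0 := by
  have hcont : Continuous fun x : Plane => cc (‖x‖ ^ 2) := by
    have := cc_cont
    fun_prop
  have hhcont : Continuous fun x : Plane => hh (‖x‖ ^ 2) := by
    have := hh_cont
    fun_prop
  have hdisc : ∀ x ∈ disc, ‖x‖ ^ 2 < 1 := by
    intro x hx
    have h1 : ‖x‖ < 1 := by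
      have : x ∈ Metric.ball (0 : Plane) 1 := hx
      simpa using this
    nlinarith [norm_nonneg x]
  have hsm : ContDiff ℝ 2 (fun x : Plane => ‖x‖ ^ 2) := contDiff_norm_sq ℝ
  obtain ⟨s₀, hs₀, hpos⟩ := exists_dS_pos
  refine ⟨fun x => cc (‖x‖ ^ 2), fun x => hh (‖x‖ ^ 2), fun x => U0 (‖x‖ ^ 2),
    fun x => U (‖x‖ ^ 2), gradient fun x : Plane => U0 (‖x‖ ^ 2),
    gradient fun x : Plane => U (‖x‖ ^ 2), hcont, hhcont, ?_, ?_, ?_, ?_, ?_, ?_, ?_, ?_⟩
  · intro x
    unfold cc
    have h1 := dS_nonneg (‖x‖ ^ 2)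
    have h2 := ζ_pos (‖x‖ ^ 2)
    have h3 : 0 < max (U (‖x‖ ^ 2)) (1 / 10) := lt_max_of_lt_right (by norm_num)
    positivity
  · refine isSol_of_classical hcont continuous_const hhcont (U0_smooth.comp hsm) ?_ ?_
    · intro x hx
      show U0 (‖x‖ ^ 2) = 0
      rw [hx]
      unfold U0
      rw [m_eq (by norm_num)]
      norm_num
    · intro x _
      have h := radial_plane U0_smooth U0_deriv U0'_deriv x
      show -Δ (fun y : Plane => U0 (‖y‖ ^ 2)) x = _ + 1 * ‖gradient
        (fun y : Plane => U0 (‖y‖ ^ 2)) x‖ ^ 2 + _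
      rw [h.1, h.2]
      unfold hh
      ring
  · exact U0_smooth.continuous.comp hsm.continuous
  · intro x hx
    unfold U0
    have h1 := Real.log_nonpos (m_pos (‖x‖ ^ 2)).le (m_le_one (hdisc x hx).le)
    linarith
  · have hs0 : 0 < s₀ := by linarith [hs₀.1]
    refine ⟨EuclideanSpace.single 0 (√s₀), ?_, ?_⟩
    · show _ ∈ Metric.ball (0 : Plane) 1
      rw [mem_ball_zero_iff, EuclideanSpace.norm_single, Real.norm_of_nonneg (Real.sqrt_nonneg _),
        Real.sqrt_lt' one_pos]
      linarith [hs₀.2]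
    · have hn : ‖(EuclideanSpace.single 0 (√s₀) : Plane)‖ ^ 2 = s₀ := by
        rw [EuclideanSpace.norm_single, Real.norm_of_nonneg (Real.sqrt_nonneg _),
          Real.sq_sqrt hs0.le]
      simp only [hn]
      have h1 : 0 < U0 s₀ := by
        unfold U0
        rw [m_eq hs₀.1.le]
        have := Real.log_neg hs0 (by linarith [hs₀.2])
        linarith
      have h2 : 0 < cc s₀ := by
        unfold cc
        have h2 := ζ_pos s₀
        have h3 : 0 < max (U s₀) (1 / 10) := lt_max_of_lt_right (by norm_num)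
        positivity
      positivity
  · refine isSol_of_classical hcont continuous_const hhcont (U_smooth.comp hsm) ?_ ?_
    · intro x hx
      show U (‖x‖ ^ 2) = 0
      rw [hx]
      unfold U U0
      rw [one_pow, m_eq (by norm_num), ζ_one]
      norm_num
    · intro x _
      have h := radial_plane U_smooth U_deriv U'_deriv x
      show -Δ (fun y : Plane => U (‖y‖ ^ 2)) x = _ + 1 * ‖gradient
        (fun y : Plane => U (‖y‖ ^ 2)) x‖ ^ 2 + _
      rw [h.1, h.2]
      have := key (‖x‖ ^ 2)
      linarith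
  · exact U_smooth.continuous.comp hsm.continuous
  · refine ⟨0, ?_, ?_⟩
    · show _ ∈ Metric.ball (0 : Plane) 1
      simp
    · have hn : ‖(0 : Plane)‖ ^ 2 = 0 := by simp
      simp only [hn]
      unfold U U0
      rw [m_zero]
      have := Real.log_neg (ζ_pos 0) ζ_zero_lt
      simp
      exact this

end

end Pool.Agent.Results.MP_ac8703_an.NegativeSolution
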